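import Mathlib

set_option autoImplicit false

/-!
Local resolving sets from closed neighbourhoods: the combinatorial core.

`V` is a finite graph without closed twins, `c` a weight on its vertices such that every clique has
total weight at most `k+1` and every vertex weight at most `k`.  Then some set `U` with
`sum c ≤ k * |U|` has the property that any two adjacent members of `U` are separated by the closed
neighbourhood of a vertex outside `U` or of weight at least two.
-/

namespace Pool.Agent.TH497.LMD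

variable {V : Type}

/-- `w` lies in the closed neighbourhood of `u`. -/
def Nb (G : SimpleGraph V) (u w : V) : Prop := w = u ∨ G.Adj u w

/-- `d` lies in the symmetric difference of the closed neighbourhoods of `u` and `v`. -/
def Dd (G : SimpleGraph V) (u v d : V) : Prop := ¬ (Nb G u d ↔ Nb G v d)

theorem nb_self (G : SimpleGraph V) (u : V) : Nb G u u := Or.inl rfl

theorem nb_symm {G : SimpleGraph V} {u w : V} : Nb G u w ↔ Nb G w u := by
  unfold Nb
  constructor
  · rintro (h | h)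
    · exact Or.inl h.symm
    · exact Or.inr h.symm
  · rintro (h | h)
    · exact Or.inl h.symm
    · exact Or.inr h.symm

theorem nb_of_adj {G : SimpleGraph V} {u w : V} (h : G.Adj u w) : Nb G u w := Or.inr h

theorem adj_of_nb {G : SimpleGraph V} {u w : V} (h : Nb G u w) (hne : u ≠ w) : G.Adj u w := by
  rcases h with h | h
  · exact absurd h.symm hne
  · exact h

/-- The standing assumptions. -/
structure Hyp (G : SimpleGraph V) (c : V → ℕ) (k : ℕ) : Prop where
  twinfree : ∀ u v, (∀ w, Nb G u w ↔ Nb G v w) → u = v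
  one_le : ∀ v, 1 ≤ c v
  le_k : ∀ v, c v ≤ k
  clique : ∀ s : Finset V, G.IsClique s → ∑ v ∈ s, c v ≤ k + 1
  two_le : 2 ≤ k

/-- A set of light vertices resolving the edges outside it (with the help of heavy vertices). -/
def Valid (G : SimpleGraph V) (c : V → ℕ) (Y : Finset V) : Prop :=
  (∀ y ∈ Y, c y = 1) ∧
    ∀ u v, u ∉ Y → v ∉ Y → G.Adj u v → ∃ d, Dd G u v d ∧ (d ∈ Y ∨ 2 ≤ c d)

/-- The closed neighbourhoods of `u` and `v` agree outside `Y`. -/
def Same (G : SimpleGraph V) (Y : Finset V) (u v : V) : Prop :=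
  ∀ d, d ∉ Y → (Nb G u d ↔ Nb G v d)

theorem Same.refl (G : SimpleGraph V) (Y : Finset V) (u : V) : Same G Y u u := fun _ _ => Iff.rfl

theorem Same.symm {G : SimpleGraph V} {Y : Finset V} {u v : V} (h : Same G Y u v) :
    Same G Y v u := fun d hd => (h d hd).symm

theorem Same.trans {G : SimpleGraph V} {Y : Finset V} {u v w : V} (h : Same G Y u v)
    (h' : Same G Y v w) : Same G Y u w := fun d hd => (h d hd).trans (h' d hd)

variable [Fintype V]

open scoped Classical in
/-- The class of `y` among the members of `Y` and the heavy vertices. -/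
noncomputable def cls (G : SimpleGraph V) (c : V → ℕ) (Y : Finset V) (y : V) : Finset V :=
  Finset.univ.filter (fun v => (v ∈ Y ∨ 2 ≤ c v) ∧ Same G Y y v)

open scoped Classical in
/-- Members of `Y` whose class is inside `Y` and has exactly `k` elements. -/
noncomputable def kbad (G : SimpleGraph V) (c : V → ℕ) (k : ℕ) (Y : Finset V) : Finset V :=
  Y.filter (fun y => cls G c Y y ⊆ Y ∧ (cls G c Y y).card = k)

theorem mem_cls {G : SimpleGraph V} {c : V → ℕ} {Y : Finset V} {y v : V} :
    v ∈ cls G c Y y ↔ (v ∈ Y ∨ 2 ≤ c v) ∧ Same G Y y v := by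
  unfold cls; simp

theorem mem_kbad {G : SimpleGraph V} {c : V → ℕ} {k : ℕ} {Y : Finset V} {y : V} :
    y ∈ kbad G c k Y ↔ y ∈ Y ∧ cls G c Y y ⊆ Y ∧ (cls G c Y y).card = k := by
  unfold kbad; simp

section core

variable {G : SimpleGraph V} {c : V → ℕ} {k : ℕ}

open scoped Classical in
theorem valid_light (H : Hyp G c k) : Valid G c (Finset.univ.filter (fun v => c v = 1)) := by
  refine ⟨fun y hy => (Finset.mem_filter.mp hy).2, fun u v _ _ huv => ?_⟩
  by_contra hcon
  push Not at hcon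
  refine huv.ne (H.twinfree u v (fun w => ?_))
  by_contra hw
  have h1 := hcon w hw
  have h2 := H.one_le w
  have h3 : c w = 1 := by omega
  exact h1.1 (Finset.mem_filter.mpr ⟨Finset.mem_univ _, h3⟩)

omit [Fintype V] in
/-- Swap lemma. -/
theorem sl0 {Y : Finset V} (hY : Valid G c Y) {y v : V}
    (hv : v ∈ Y ∨ 2 ≤ c v) (hvy : v ≠ y) (hs : Same G Y y v) {p q : V} (hp : p ∉ Y) (hq : q ∉ Y)
    (hpq : G.Adj p q) : ∃ d, Dd G p q d ∧ (d ∈ Y ∨ 2 ≤ c d) ∧ d ≠ y := by
  obtain ⟨d, hd, hd'⟩ := hY.2 p q hp hq hpq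
  by_cases hdy : d = y
  · subst hdy
    refine ⟨v, ?_, hv, hvy⟩
    intro hiff
    apply hd
    have h1 := hs p hp
    have h2 := hs q hq
    rw [nb_symm (u := p) (w := d), nb_symm (u := q) (w := d), h1, h2,
      nb_symm (u := v) (w := p), nb_symm (u := v) (w := q)]
    exact hiff
  · exact ⟨d, hd, hd', hdy⟩

open scoped Classical in
/-- A member of a minimal valid set sharing its class has a private partner outside. -/
theorem sl {Y : Finset V} (hY : Valid G c Y)
    (hmin : ∀ Z, Valid G c Z → Y.card ≤ Z.card) {y v : V} (hy : y ∈ Y)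
    (hv : v ∈ Y ∨ 2 ≤ c v) (hvy : v ≠ y) (hs : Same G Y y v) :
    ∃ x, x ∉ Y ∧ G.Adj y x ∧ ∀ d, (d ∈ Y ∨ 2 ≤ c d) → (Nb G y d ↔ Nb G x d) := by
  have hnot : ¬ Valid G c (Y.erase y) := by
    intro h
    have := hmin _ h
    have h2 := Finset.card_erase_lt_of_mem hy
    omega
  have key : ∀ x, x ∉ Y.erase y → G.Adj y x → (¬ ∃ d, Dd G y x d ∧ (d ∈ Y.erase y ∨ 2 ≤ c d)) →
      x ∉ Y ∧ G.Adj y x ∧ ∀ d, (d ∈ Y ∨ 2 ≤ c d) → (Nb G y d ↔ Nb G x d) := by
    intro x hx hyx hno
    refine ⟨?_, hyx, ?_⟩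
    · intro hxY
      exact hx (Finset.mem_erase.mpr ⟨hyx.ne', hxY⟩)
    · intro d hd
      by_cases hdy : d = y
      · subst hdy
        exact ⟨fun _ => nb_of_adj hyx.symm, fun _ => nb_self G d⟩
      · by_contra hcon
        apply hno
        refine ⟨d, hcon, ?_⟩
        rcases hd with hd | hd
        · exact Or.inl (Finset.mem_erase.mpr ⟨hdy, hd⟩)
        · exact Or.inr hd
  by_contra hcon
  apply hnot
  refine ⟨fun z hz => hY.1 z (Finset.mem_of_mem_erase hz), fun p q hp hq hpq => ?_⟩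
  by_contra hno
  by_cases hpy : p = y
  · subst hpy
    exact hcon ⟨q, key q hq hpq hno⟩
  · by_cases hqy : q = y
    · subst hqy
      refine hcon ⟨p, key p hp hpq.symm ?_⟩
      rintro ⟨d, hd, hd'⟩
      refine hno ⟨d, ?_, hd'⟩
      intro h
      exact hd h.symm
    · have hpY : p ∉ Y := fun h => hp (Finset.mem_erase.mpr ⟨hpy, h⟩)
      have hqY : q ∉ Y := fun h => hq (Finset.mem_erase.mpr ⟨hqy, h⟩)
      obtain ⟨d, hd, hd', hdy⟩ := sl0 hY hv hvy hs hpY hqY hpq
      refine hno ⟨d, hd, ?_⟩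
      rcases hd' with h | h
      · exact Or.inl (Finset.mem_erase.mpr ⟨hdy, h⟩)
      · exact Or.inr h

omit [Fintype V] in
/-- The partner is adjacent to the whole class. -/
theorem partner_adj (H : Hyp G c k) {Y : Finset V} {y v x : V}
    (hv : v ∈ Y ∨ 2 ≤ c v) (hvy : v ≠ y) (hs : Same G Y y v) (hx : x ∉ Y)
    (hyx : G.Adj y x) (hxP : ∀ d, (d ∈ Y ∨ 2 ≤ c d) → (Nb G y d ↔ Nb G x d)) :
    G.Adj y v ∧ G.Adj v x := by
  have h1 : Nb G v x := (hs x hx).mp (nb_of_adj hyx)
  have h2 : Nb G x v := nb_symm.mp h1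
  have h3 : Nb G y v := (hxP v hv).mpr h2
  refine ⟨adj_of_nb h3 hvy.symm, adj_of_nb h1 ?_⟩
  intro hvx
  subst hvx
  apply hvy
  refine H.twinfree v y (fun w => ?_)
  by_cases hw : w ∈ Y
  · exact (hxP w (Or.inl hw)).symm
  · exact (hs w hw).symm

theorem cls_adj (H : Hyp G c k) {Y : Finset V} (hY : Valid G c Y)
    (hmin : ∀ Z, Valid G c Z → Y.card ≤ Z.card) {u v : V}
    (hv : v ∈ Y ∨ 2 ≤ c v) (hne : u ≠ v) (hs : Same G Y u v) :
    G.Adj u v := by
  by_cases huY : u ∈ Y
  · obtain ⟨x, hx, hyx, hxP⟩ := sl hY hmin huY hv hne.symm hs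
    exact (partner_adj H hv hne.symm hs hx hyx hxP).1
  · have : Nb G v u := (hs u huY).mp (nb_self G u)
    exact (adj_of_nb this hne.symm).symm

theorem cls_clique (H : Hyp G c k) {Y : Finset V} (hY : Valid G c Y)
    (hmin : ∀ Z, Valid G c Z → Y.card ≤ Z.card) (y : V) :
    G.IsClique (cls G c Y y : Set V) := by
  intro u hu v hv hne
  have hu' := mem_cls.mp (Finset.mem_coe.mp hu)
  have hv' := mem_cls.mp (Finset.mem_coe.mp hv)
  exact cls_adj H hY hmin hv'.1 hne (hu'.2.symm.trans hv'.2)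

omit [Fintype V] in
open scoped Classical in
theorem sum_insert_clique (H : Hyp G c k) {s : Finset V} (hs : G.IsClique (s : Set V)) {x : V}
    (hx : x ∉ s) (hadj : ∀ v ∈ s, G.Adj v x) : ∑ v ∈ s, c v + c x ≤ k + 1 := by
  have h1 : G.IsClique ((insert x s : Finset V) : Set V) := by
    rw [Finset.coe_insert]
    apply SimpleGraph.IsClique.insert hs
    intro b hb _
    exact (hadj b (Finset.mem_coe.mp hb)).symm
  have h2 := H.clique _ h1
  rw [Finset.sum_insert hx] at h2
  omega

/-- A mixed or light class of size at least two has weight at most `k`. -/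
theorem cls_sum_le (H : Hyp G c k) {Y : Finset V} (hY : Valid G c Y)
    (hmin : ∀ Z, Valid G c Z → Y.card ≤ Z.card) {y v : V} (hy : y ∈ Y)
    (hv : v ∈ Y ∨ 2 ≤ c v) (hvy : v ≠ y) (hs : Same G Y y v) :
    ∑ w ∈ cls G c Y y, c w ≤ k := by
  obtain ⟨x, hx, hyx, hxP⟩ := sl hY hmin hy hv hvy hs
  have hxn : x ∉ cls G c Y y := by
    intro hmem
    have hm := mem_cls.mp hmem
    apply hyx.ne
    refine H.twinfree y x (fun w => ?_)
    by_cases hw : w ∈ Y
    · exact hxP w (Or.inl hw)
    · exact hm.2 w hw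
  have h := sum_insert_clique H (cls_clique H hY hmin y) hxn (by
    intro w hw
    have hm := mem_cls.mp hw
    by_cases hwy : w = y
    · subst hwy; exact hyx
    · exact (partner_adj H hm.1 hwy hm.2 hx hyx hxP).2)
  have := H.one_le x
  omega

theorem cls_eq_of_same {Y : Finset V} {a b : V} (h : Same G Y a b) :
    cls G c Y a = cls G c Y b := by
  ext v
  rw [mem_cls, mem_cls]
  constructor
  · rintro ⟨h1, h2⟩
    exact ⟨h1, h.symm.trans h2⟩
  · rintro ⟨h1, h2⟩
    exact ⟨h1, h.trans h2⟩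

omit [Fintype V] in
open scoped Classical in
/-- Two adjacent common neighbours of a clique of weight `k` are impossible. -/
theorem two_ext (H : Hyp G c k) {K : Finset V} (hK : G.IsClique (K : Set V))
    (hsum : ∑ v ∈ K, c v = k) {a b : V} (ha : a ∉ K) (hb : b ∉ K)
    (haK : ∀ z ∈ K, G.Adj z a) (hbK : ∀ z ∈ K, G.Adj z b) : ¬ G.Adj a b := by
  intro hab
  have h1 : G.IsClique ((insert a K : Finset V) : Set V) := by
    rw [Finset.coe_insert]
    apply SimpleGraph.IsClique.insert hK
    intro z hz _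
    exact (haK z (Finset.mem_coe.mp hz)).symm
  have hb' : b ∉ insert a K := by
    intro h
    rcases Finset.mem_insert.mp h with h | h
    · exact hab.ne h.symm
    · exact hb h
  have h2 := sum_insert_clique H h1 hb' (by
    intro v hv
    rcases Finset.mem_insert.mp hv with h | h
    · subst h; exact hab
    · exact hbK v h)
  rw [Finset.sum_insert ha, hsum] at h2
  have := H.one_le a
  have := H.one_le b
  omega

open scoped Classical in
theorem kbad_elim (H : Hyp G c k) {Y : Finset V} (hY : Valid G c Y)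
    (hmin : ∀ Z, Valid G c Z → Y.card ≤ Z.card) {y : V} (hy : y ∈ kbad G c k Y) :
    ∃ Z, Valid G c Z ∧ Z.card = Y.card ∧ (kbad G c k Z).card < (kbad G c k Y).card := by
  obtain ⟨hyY, hKY, hKc⟩ := mem_kbad.mp hy
  set K := cls G c Y y with hKdef
  have hk2 := H.two_le
  obtain ⟨y1, hy1, y2, hy2, hy12⟩ := Finset.one_lt_card.mp (show 1 < K.card by omega)
  have hsame : ∀ a ∈ K, ∀ b ∈ K, Same G Y a b := fun a ha b hb =>
    (mem_cls.mp ha).2.symm.trans (mem_cls.mp hb).2
  have hKcl : G.IsClique (K : Set V) := cls_clique H hY hmin y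
  have hKsum : ∑ v ∈ K, c v = k := by
    rw [Finset.sum_congr rfl (fun v hv => hY.1 v (hKY hv))]
    simpa using hKc
  have hy1Y := hKY hy1
  have hy2Y := hKY hy2
  -- common outer neighbourhood
  have hA : ∀ a, a ∉ Y → ∀ z ∈ K, G.Adj z a → ∀ w ∈ K, G.Adj w a := by
    intro a ha z hz hza w hw
    have h1 : Nb G w a := (hsame z hz w hw a ha).mp (nb_of_adj hza)
    exact adj_of_nb h1 (fun h => ha (h ▸ hKY hw))
  have hAone : ∀ a, a ∉ Y → (∀ z ∈ K, G.Adj z a) → c a = 1 := by
    intro a ha hza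
    have h1 := sum_insert_clique H hKcl (fun h => ha (hKY h)) hza
    have h2 := H.one_le a
    omega
  obtain ⟨x1, hx1, hyx1, hx1P⟩ := sl hY hmin hy1Y (Or.inl hy2Y) hy12.symm (hsame y1 hy1 y2 hy2)
  obtain ⟨x2, hx2, hyx2, hx2P⟩ := sl hY hmin hy2Y (Or.inl hy1Y) hy12 (hsame y2 hy2 y1 hy1)
  have hx12 : x1 ≠ x2 := by
    intro h
    subst h
    apply hy12
    refine H.twinfree y1 y2 (fun w => ?_)
    by_cases hw : w ∈ Y
    · exact (hx1P w (Or.inl hw)).trans (hx2P w (Or.inl hw)).symm
    · exact hsame y1 hy1 y2 hy2 w hw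
  have hx1A := hA x1 hx1 y1 hy1 hyx1
  have hx2A := hA x2 hx2 y2 hy2 hyx2
  have hx12n : ¬ G.Adj x1 x2 := two_ext H hKcl hKsum (fun h => hx1 (hKY h))
    (fun h => hx2 (hKY h)) hx1A hx2A
  have hAind : ∀ a, a ∉ Y → (∀ z ∈ K, G.Adj z a) → ¬ G.Adj a x2 := fun a ha haK =>
    two_ext H hKcl hKsum (fun h => ha (hKY h)) (fun h => hx2 (hKY h)) haK hx2A
  have F1 : ∀ w, w ∈ Y → w ∉ K → (∀ z ∈ K, G.Adj z w) → False := by
    intro w hwY hwK hadj
    have h1 : Nb G x1 w := (hx1P w (Or.inl hwY)).mp (nb_of_adj (hadj y1 hy1))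
    have h2 : x1 ≠ w := fun h => hx1 (h ▸ hwY)
    exact two_ext H hKcl hKsum (fun h => hx1 (hKY h)) hwK hx1A hadj (adj_of_nb h1 h2)
  -- the new set
  set Z := insert x2 (Y.erase y1) with hZdef
  have hmemZ : ∀ d, d ∈ Z ↔ d = x2 ∨ (d ≠ y1 ∧ d ∈ Y) := by
    intro d
    rw [hZdef, Finset.mem_insert, Finset.mem_erase]
  have hZcard : Z.card = Y.card := by
    rw [hZdef, Finset.card_insert_of_notMem (fun h => hx2 (Finset.mem_of_mem_erase h)),
      Finset.card_erase_of_mem hy1Y]
    have := Finset.card_pos.mpr ⟨y1, hy1Y⟩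
    omega
  have hx2Z : x2 ∈ Z := (hmemZ x2).mpr (Or.inl rfl)
  have hy1Z : y1 ∉ Z := by
    intro h
    rcases (hmemZ y1).mp h with h | h
    · exact hx2 (h ▸ hy1Y)
    · exact h.1 rfl
  have hy2Z : y2 ∈ Z := (hmemZ y2).mpr (Or.inr ⟨hy12.symm, hy2Y⟩)
  have hx1Z : x1 ∉ Z := by
    intro h
    rcases (hmemZ x1).mp h with h | h
    · exact hx12 h
    · exact hx1 h.2
  have hpair : ∀ v, v ∉ Z → G.Adj y1 v → ∃ d, Dd G y1 v d ∧ (d ∈ Z ∨ 2 ≤ c d) := by
    intro v hv hadj
    have hvY : v ∉ Y := by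
      intro h
      exact hv ((hmemZ v).mpr (Or.inr ⟨hadj.ne', h⟩))
    refine ⟨x2, ?_, Or.inl hx2Z⟩
    intro hiff
    have h1 : Nb G v x2 := hiff.mp (nb_of_adj (hx2A y1 hy1))
    have h2 : v ≠ x2 := fun h => hv (h ▸ hx2Z)
    exact hAind v hvY (hA v hvY y1 hy1 hadj) (adj_of_nb h1 h2)
  have hZ : Valid G c Z := by
    refine ⟨?_, ?_⟩
    · intro z hz
      rcases (hmemZ z).mp hz with h | h
      · subst h
        exact hAone _ hx2 hx2A
      · exact hY.1 z h.2
    · intro p q hp hq hpq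
      by_cases hpy : p = y1
      · subst hpy
        exact hpair q hq hpq
      · by_cases hqy : q = y1
        · subst hqy
          obtain ⟨d, hd, hd'⟩ := hpair p hp hpq.symm
          exact ⟨d, fun h => hd h.symm, hd'⟩
        · have hpY : p ∉ Y := fun h => hp ((hmemZ p).mpr (Or.inr ⟨hpy, h⟩))
          have hqY : q ∉ Y := fun h => hq ((hmemZ q).mpr (Or.inr ⟨hqy, h⟩))
          obtain ⟨d, hd, hd', hdy⟩ := sl0 hY (Or.inl hy2Y) hy12.symm (hsame y1 hy1 y2 hy2)
            hpY hqY hpq
          refine ⟨d, hd, ?_⟩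
          rcases hd' with h | h
          · exact Or.inl ((hmemZ d).mpr (Or.inr ⟨hdy, h⟩))
          · exact Or.inr h
  have hminZ : ∀ W, Valid G c W → Z.card ≤ W.card := by
    intro W hW
    rw [hZcard]
    exact hmin W hW
  refine ⟨Z, hZ, hZcard, ?_⟩
  have hy1bad : y1 ∈ kbad G c k Y := by
    rw [mem_kbad, ← cls_eq_of_same (mem_cls.mp hy1).2]
    exact ⟨hy1Y, hKY, hKc⟩
  have hsub : kbad G c k Z ⊆ (kbad G c k Y).erase y1 := by
    intro w hw
    obtain ⟨hwZ, hLZ, hLc⟩ := mem_kbad.mp hw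
    set L := cls G c Z w with hLdef
    have hLcl : G.IsClique (L : Set V) := cls_clique H hZ hminZ w
    have hLsame : ∀ a ∈ L, ∀ b ∈ L, Same G Z a b := fun a ha b hb =>
      (mem_cls.mp ha).2.symm.trans (mem_cls.mp hb).2
    have hwL : w ∈ L := mem_cls.mpr ⟨Or.inl hwZ, Same.refl G Z w⟩
    -- (alpha)
    have hx2L : x2 ∉ L := by
      intro hx2L
      obtain ⟨u, huL, hux⟩ := Finset.exists_mem_ne (show 1 < L.card by omega) x2
      have huZ := hLZ huL
      have huY : u ≠ y1 ∧ u ∈ Y := by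
        rcases (hmemZ u).mp huZ with h | h
        · exact absurd h hux
        · exact h
      have hs := hLsame x2 hx2L u huL
      have h1 : Nb G u y1 := (hs y1 hy1Z).mp (nb_of_adj (hx2A y1 hy1).symm)
      have h2 : ¬ Nb G u x1 := by
        intro h
        have h3 : Nb G x2 x1 := (hs x1 hx1Z).mpr h
        exact hx12n (adj_of_nb h3 hx12.symm).symm
      have h3 : Nb G x1 u := (hx1P u (Or.inl huY.2)).mp (nb_symm.mp h1)
      exact h2 (nb_symm.mp h3)
    have hLY : ∀ u ∈ L, u ≠ y1 ∧ u ∈ Y := by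
      intro u hu
      rcases (hmemZ u).mp (hLZ hu) with h | h
      · exact absurd hu (h ▸ hx2L)
      · exact h
    -- (beta)
    have hbeta : ∀ u ∈ L, ∀ v ∈ L, Nb G u x2 → Nb G v x2 := by
      intro u hu v hv hux
      by_contra hvx
      have huv : u ≠ v := fun h => hvx (h ▸ hux)
      have huvadj : G.Adj u v := hLcl (Finset.mem_coe.mpr hu) (Finset.mem_coe.mpr hv) huv
      have huY := hLY u hu
      have hvY := hLY v hv
      have h1 : Nb G y2 u := (hx2P u (Or.inl huY.2)).mpr (nb_symm.mp hux)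
      have h2 : ¬ Nb G y2 v := fun h => hvx (nb_symm.mp ((hx2P v (Or.inl hvY.2)).mp h))
      have huy2 : u ≠ y2 := by
        intro h
        subst h
        exact h2 (nb_of_adj huvadj)
      obtain ⟨t, ht, hut, htP⟩ := sl hZ hminZ (hLZ hu) (Or.inl (hLZ hv)) huv.symm
        (hLsame u hu v hv)
      have h3 : Nb G t x2 := (htP x2 (Or.inl hx2Z)).mp hux
      have htx2 : t ≠ x2 := fun h => ht (h ▸ hx2Z)
      have h4 : Nb G t y2 := (htP y2 (Or.inl hy2Z)).mp (nb_symm.mp h1)
      have hty2 : t ≠ y2 := fun h => ht (h ▸ hy2Z)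
      have htadj := adj_of_nb h3 htx2
      by_cases htY : t ∈ Y
      · have hty1 : t = y1 := by
          by_contra hne
          exact ht ((hmemZ t).mpr (Or.inr ⟨hne, htY⟩))
        subst hty1
        have hall : ∀ z ∈ K, Nb G u z := by
          intro z hz
          by_cases hzt : z = t
          · subst hzt
            exact nb_of_adj hut
          · have hzZ : z ∈ Z := (hmemZ z).mpr (Or.inr ⟨hzt, hKY hz⟩)
            refine (htP z (Or.inl hzZ)).mpr ?_
            exact nb_of_adj (hKcl (Finset.mem_coe.mpr hy1) (Finset.mem_coe.mpr hz) (Ne.symm hzt))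
        by_cases huK : u ∈ K
        · apply huY.1
          refine H.twinfree u t (fun d => ?_)
          by_cases hdY : d ∈ Y
          · by_cases hdt : d = t
            · subst hdt
              exact ⟨fun _ => nb_self G d, fun _ => nb_of_adj hut⟩
            · exact htP d (Or.inl ((hmemZ d).mpr (Or.inr ⟨hdt, hdY⟩)))
          · exact hsame u huK t hy1 d hdY
        · refine F1 u huY.2 huK (fun z hz => ?_)
          exact (adj_of_nb (hall z hz) (fun h => huK (h ▸ hz))).symm
      · exact hAind t htY (hA t htY y2 hy2 (adj_of_nb h4 hty2).symm) htadj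
    -- (gamma)
    have hLsameY : ∀ a ∈ L, ∀ b ∈ L, Same G Y a b := by
      intro a ha b hb d hd
      by_cases hdx : d = x2
      · subst hdx
        exact ⟨hbeta a ha b hb, hbeta b hb a ha⟩
      · refine hLsame a ha b hb d ?_
        intro hdZ
        rcases (hmemZ d).mp hdZ with h | h
        · exact hdx h
        · exact hd h.2
    have hLsub : L ⊆ cls G c Y w := by
      intro u hu
      exact mem_cls.mpr ⟨Or.inl (hLY u hu).2, hLsameY w hwL u hu⟩
    have hwY := hLY w hwL
    obtain ⟨u, huL, huw⟩ := Finset.exists_mem_ne (show 1 < L.card by omega) w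
    have hle := cls_sum_le H hY hmin hwY.2 (Or.inl (hLY u huL).2) huw (hLsameY w hwL u huL)
    have hLsum : ∑ v ∈ L, c v = k := by
      rw [Finset.sum_congr rfl (fun v hv => hY.1 v (hLY v hv).2)]
      simpa using hLc
    have hLeq : L = cls G c Y w := by
      apply Finset.Subset.antisymm hLsub
      intro v hv
      by_contra hvL
      have h1 : ∑ v ∈ insert v L, c v ≤ ∑ v ∈ cls G c Y w, c v := by
        apply Finset.sum_le_sum_of_subset
        intro z hz
        rcases Finset.mem_insert.mp hz with h | h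
        · subst h; exact hv
        · exact hLsub h
      rw [Finset.sum_insert hvL, hLsum] at h1
      have := H.one_le v
      omega
    rw [Finset.mem_erase, mem_kbad, ← hLeq]
    exact ⟨hwY.1, hwY.2, fun z hz => (hLY z hz).2, hLc⟩
  calc (kbad G c k Z).card ≤ ((kbad G c k Y).erase y1).card := Finset.card_le_card hsub
    _ < (kbad G c k Y).card := Finset.card_erase_lt_of_mem hy1bad

open scoped Classical in
theorem exists_good (H : Hyp G c k) : ∃ Y, Valid G c Y ∧
    (∀ Z, Valid G c Z → Y.card ≤ Z.card) ∧ kbad G c k Y = ∅ := by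
  obtain ⟨Y0, hY0, hmin0⟩ := Finset.exists_min_image
    (Finset.univ.filter (fun Y : Finset V => Valid G c Y)) (fun Y => Y.card)
    ⟨_, Finset.mem_filter.mpr ⟨Finset.mem_univ _, valid_light H⟩⟩
  have hY0v := (Finset.mem_filter.mp hY0).2
  obtain ⟨Y, hY, hmin⟩ := Finset.exists_min_image
    (Finset.univ.filter (fun Y : Finset V => Valid G c Y ∧ Y.card = Y0.card))
    (fun Y => (kbad G c k Y).card)
    ⟨Y0, Finset.mem_filter.mpr ⟨Finset.mem_univ _, hY0v, rfl⟩⟩
  obtain ⟨hYv, hYc⟩ := (Finset.mem_filter.mp hY).2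
  have hYmin : ∀ Z, Valid G c Z → Y.card ≤ Z.card := by
    intro Z hZ
    rw [hYc]
    exact hmin0 Z (Finset.mem_filter.mpr ⟨Finset.mem_univ _, hZ⟩)
  refine ⟨Y, hYv, hYmin, ?_⟩
  by_contra hne
  obtain ⟨y, hy⟩ := Finset.nonempty_iff_ne_empty.mpr hne
  obtain ⟨Z, hZ, hZc, hlt⟩ := kbad_elim H hYv hYmin hy
  have := hmin Z (Finset.mem_filter.mpr ⟨Finset.mem_univ _, hZ, hZc.trans hYc⟩)
  omega

open scoped Classical in
/-- The weight of a class is controlled when there are no bad classes. -/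
theorem class_bound (H : Hyp G c k) {Y : Finset V} (hY : Valid G c Y)
    (hmin : ∀ Z, Valid G c Z → Y.card ≤ Z.card) (hbad : kbad G c k Y = ∅) {y : V}
    (hy : y ∈ Y ∨ 2 ≤ c y) :
    ∑ v ∈ cls G c Y y, c v ≤ ((cls G c Y y).filter (fun v => 2 ≤ c v)).card + (k - 1) := by
  have hk2 := H.two_le
  set K := cls G c Y y with hKdef
  have hyK : y ∈ K := mem_cls.mpr ⟨hy, Same.refl G Y y⟩
  by_cases hcard : K.card = 1
  · obtain ⟨z, hz⟩ := Finset.card_eq_one.mp hcard
    have hzy : y = z := by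
      rw [hz] at hyK
      exact Finset.mem_singleton.mp hyK
    subst hzy
    rw [hz, Finset.sum_singleton]
    rcases hy with h | h
    · rw [hY.1 _ h]; omega
    · have h1 : (Finset.filter (fun v => 2 ≤ c v) {y}).card = 1 := by
        rw [Finset.filter_singleton, if_pos h, Finset.card_singleton]
      rw [h1]
      have := H.le_k y
      omega
  · have hcard2 : 1 < K.card := by
      have := Finset.card_pos.mpr ⟨y, hyK⟩
      omega
    by_cases hKY : ∃ z ∈ K, z ∈ Y
    · obtain ⟨z, hzK, hzY⟩ := hKY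
      have hcl : cls G c Y z = K := (cls_eq_of_same (mem_cls.mp hzK).2).symm
      obtain ⟨u, huK, huz⟩ := Finset.exists_mem_ne hcard2 z
      have hsum : ∑ v ∈ K, c v ≤ k := by
        rw [← hcl]
        exact cls_sum_le H hY hmin hzY (mem_cls.mp huK).1 huz
          ((mem_cls.mp hzK).2.symm.trans (mem_cls.mp huK).2)
      by_cases hB : ∃ w ∈ K, 2 ≤ c w
      · obtain ⟨w, hwK, hw⟩ := hB
        have : 0 < (K.filter (fun v => 2 ≤ c v)).card :=
          Finset.card_pos.mpr ⟨w, Finset.mem_filter.mpr ⟨hwK, hw⟩⟩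
        omega
      · have hKsub : K ⊆ Y := by
          intro w hw
          rcases (mem_cls.mp hw).1 with h | h
          · exact h
          · exact absurd ⟨w, hw, h⟩ hB
        have hne : K.card ≠ k := by
          intro h
          have : z ∈ kbad G c k Y := by
            rw [mem_kbad, hcl]
            exact ⟨hzY, hKsub, h⟩
          rw [hbad] at this
          exact absurd this (Finset.notMem_empty z)
        have hKsum : ∑ v ∈ K, c v = K.card := by
          rw [Finset.sum_congr rfl (fun v hv => hY.1 v (hKsub hv))]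
          simp
        omega
    · have hfil : K.filter (fun v => 2 ≤ c v) = K := by
        apply Finset.filter_true_of_mem
        intro v hv
        rcases (mem_cls.mp hv).1 with h | h
        · exact absurd ⟨v, hv, h⟩ hKY
        · exact h
      rw [hfil]
      have := H.clique K (cls_clique H hY hmin y)
      omega

open scoped Classical in
/-- The abstract theorem. -/
theorem abstract_bound (H : Hyp G c k) : ∃ U : Finset V,
    (∀ u ∈ U, ∀ v ∈ U, G.Adj u v → ∃ d, Dd G u v d ∧ (d ∉ U ∨ 2 ≤ c d)) ∧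
      ∑ v, c v ≤ k * U.card := by
  rcases isEmpty_or_nonempty V with hemp | hne
  · refine ⟨∅, fun u hu => absurd hu (Finset.notMem_empty u), ?_⟩
    rw [Finset.univ_eq_empty, Finset.sum_empty]
    exact Nat.zero_le _
  obtain ⟨Y, hY, hmin, hbad⟩ := exists_good H
  have hk2 := H.two_le
  -- the set of light members of `Y` and heavy vertices
  set P := Finset.univ.filter (fun v => v ∈ Y ∨ 2 ≤ c v) with hP
  have hmemP : ∀ v, v ∈ P ↔ (v ∈ Y ∨ 2 ≤ c v) := by
    intro v; rw [hP]; simp
  set τ : V → Finset V := fun v => Finset.univ.filter (fun d => d ∉ Y ∧ Nb G v d) with hτ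
  have hτs : ∀ u v, τ u = τ v ↔ Same G Y u v := by
    intro u v
    constructor
    · intro h d hd
      have h1 : d ∈ τ u ↔ d ∈ τ v := by rw [h]
      simp only [hτ, Finset.mem_filter, Finset.mem_univ, true_and] at h1
      constructor
      · intro h2; exact (h1.mp ⟨hd, h2⟩).2
      · intro h2; exact (h1.mpr ⟨hd, h2⟩).2
    · intro h
      ext d
      simp only [hτ, Finset.mem_filter, Finset.mem_univ, true_and]
      constructor
      · rintro ⟨h1, h2⟩; exact ⟨h1, (h d h1).mp h2⟩
      · rintro ⟨h1, h2⟩; exact ⟨h1, (h d h1).mpr h2⟩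
  -- transversal
  have hex : ∀ b ∈ P.image τ, ∃ v ∈ P, τ v = b := fun b hb => Finset.mem_image.mp hb
  choose! g hgP hgτ using hex
  set T := (P.image τ).image g with hT
  have hTcard : T.card = (P.image τ).card := by
    rw [hT]
    apply Finset.card_image_of_injOn
    intro a ha b hb hab
    rw [← hgτ a (Finset.mem_coe.mp ha), ← hgτ b (Finset.mem_coe.mp hb)]
    exact congrArg τ hab
  have hTP : ∀ t ∈ T, t ∈ P := by
    intro t ht
    obtain ⟨b, hb, rfl⟩ := Finset.mem_image.mp ht
    exact hgP b hb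
  have hTinj : ∀ s ∈ T, ∀ t ∈ T, τ s = τ t → s = t := by
    intro s hs t ht hst
    obtain ⟨a, ha, rfl⟩ := Finset.mem_image.mp hs
    obtain ⟨b, hb, rfl⟩ := Finset.mem_image.mp ht
    rw [hgτ a ha, hgτ b hb] at hst
    rw [hst]
  have hTgood : ∀ u ∈ T, ∀ v ∈ T, G.Adj u v → ∃ d, Dd G u v d ∧ (d ∉ T ∨ 2 ≤ c d) := by
    intro u hu v hv huv
    by_contra hcon
    push Not at hcon
    apply huv.ne
    apply hTinj u hu v hv
    rw [hτs]
    intro d hd
    by_contra hdd
    obtain ⟨h1, h2⟩ := hcon d hdd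
    rcases (hmemP d).mp (hTP d h1) with h | h
    · exact hd h
    · omega
  -- complement
  set U := Finset.univ \ Y with hU
  have hmemU : ∀ v, v ∈ U ↔ v ∉ Y := by intro v; rw [hU]; simp
  have hUgood : ∀ u ∈ U, ∀ v ∈ U, G.Adj u v → ∃ d, Dd G u v d ∧ (d ∉ U ∨ 2 ≤ c d) := by
    intro u hu v hv huv
    obtain ⟨d, hd, hd'⟩ := hY.2 u v ((hmemU u).mp hu) ((hmemU v).mp hv) huv
    refine ⟨d, hd, ?_⟩
    rcases hd' with h | h
    · exact Or.inl (fun h' => (hmemU d).mp h' h)
    · exact Or.inr h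
  -- counting
  have hcount1 : ∑ v ∈ P, c v ≤ (P.filter (fun v => 2 ≤ c v)).card + (k - 1) * T.card := by
    have hmaps : ∀ v ∈ P, τ v ∈ P.image τ := fun v hv => Finset.mem_image_of_mem τ hv
    rw [← Finset.sum_fiberwise_of_maps_to hmaps c]
    have hmaps2 : ∀ v ∈ P.filter (fun v => 2 ≤ c v), τ v ∈ P.image τ := fun v hv =>
      hmaps v (Finset.mem_of_mem_filter v hv)
    rw [Finset.card_eq_sum_card_fiberwise hmaps2, hTcard, mul_comm, ← smul_eq_mul,
      ← Finset.sum_const, ← Finset.sum_add_distrib]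
    apply Finset.sum_le_sum
    intro b hb
    obtain ⟨y, hyP, rfl⟩ := Finset.mem_image.mp hb
    have hfib : P.filter (fun v => τ v = τ y) = cls G c Y y := by
      ext v
      rw [Finset.mem_filter, mem_cls, hmemP, hτs]
      constructor
      · rintro ⟨h1, h2⟩; exact ⟨h1, h2.symm⟩
      · rintro ⟨h1, h2⟩; exact ⟨h1, h2.symm⟩
    have hfib2 : (P.filter (fun v => 2 ≤ c v)).filter (fun v => τ v = τ y) =
        (cls G c Y y).filter (fun v => 2 ≤ c v) := by
      rw [← hfib]
      ext v
      simp only [Finset.mem_filter]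
      constructor
      · rintro ⟨⟨h1, h2⟩, h3⟩; exact ⟨⟨h1, h3⟩, h2⟩
      · rintro ⟨⟨h1, h3⟩, h2⟩; exact ⟨⟨h1, h2⟩, h3⟩
    rw [hfib, hfib2]
    exact class_bound H hY hmin hbad ((hmemP y).mp hyP)
  have hcount2 : ∑ v, c v = (Finset.univ.filter (fun v => ¬ (v ∈ Y ∨ 2 ≤ c v))).card
      + ∑ v ∈ P, c v := by
    rw [← Finset.sum_filter_add_sum_filter_not Finset.univ (fun v => v ∈ Y ∨ 2 ≤ c v), add_comm]
    congr 1
    rw [Finset.card_eq_sum_ones]
    apply Finset.sum_congr rfl
    intro v hv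
    have h1 := (Finset.mem_filter.mp hv).2
    push Not at h1
    have := H.one_le v
    omega
  have hcount3 : (Finset.univ.filter (fun v => ¬ (v ∈ Y ∨ 2 ≤ c v))).card
      + (P.filter (fun v => 2 ≤ c v)).card ≤ U.card := by
    rw [← Finset.card_union_of_disjoint]
    · apply Finset.card_le_card
      intro v hv
      rw [hmemU]
      rcases Finset.mem_union.mp hv with h | h
      · exact fun hvY => (Finset.mem_filter.mp h).2 (Or.inl hvY)
      · intro hvY
        have h1 := (Finset.mem_filter.mp h).2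
        have h2 := hY.1 v hvY
        omega
    · rw [Finset.disjoint_left]
      intro v h1 h2
      exact (Finset.mem_filter.mp h1).2 (Or.inr (Finset.mem_filter.mp h2).2)
  have hmain : ∑ v, c v ≤ U.card + (k - 1) * T.card := by omega
  rcases le_total U.card T.card with h | h
  · refine ⟨T, hTgood, hmain.trans ?_⟩
    calc U.card + (k - 1) * T.card ≤ T.card + (k - 1) * T.card := by omega
      _ = k * T.card := by
        obtain ⟨m, rfl⟩ : ∃ m, k = m + 1 := ⟨k - 1, by omega⟩
        rw [Nat.add_sub_cancel]; ring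
  · refine ⟨U, hUgood, hmain.trans ?_⟩
    calc U.card + (k - 1) * T.card ≤ U.card + (k - 1) * U.card := by
          have := Nat.mul_le_mul_left (k - 1) h
          omega
      _ = k * U.card := by
        obtain ⟨m, rfl⟩ : ∃ m, k = m + 1 := ⟨k - 1, by omega⟩
        rw [Nat.add_sub_cancel]; ring

end core

end Pool.Agent.TH497.LMD
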