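import Mathlib
import Pool.Agent.TH497.LMD

set_option autoImplicit false

/-!
Reduction of the bound on the local metric dimension to the weighted statement for the quotient by
closed twins.
-/

namespace Pool.Agent.TH497.LMD

variable {V : Type} [Fintype V]

/-- Closed twins. -/
def twin (G : SimpleGraph V) : Setoid V where
  r u v := ∀ w, Nb G u w ↔ Nb G v w
  iseqv := ⟨fun _ _ => Iff.rfl, fun h w => (h w).symm, fun h h' w => (h w).trans (h' w)⟩

/-- The quotient graph. -/
def QG (G : SimpleGraph V) : SimpleGraph (Quotient (twin G)) where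
  Adj a b := a ≠ b ∧ G.Adj a.out b.out
  symm := ⟨fun _ _ h => ⟨h.1.symm, h.2.symm⟩⟩
  loopless := ⟨fun _ h => h.1 rfl⟩

open scoped Classical in
/-- The members of a class. -/
noncomputable def mem (G : SimpleGraph V) (a : Quotient (twin G)) : Finset V :=
  Finset.univ.filter (fun v => (Quotient.mk (twin G) v) = a)

theorem mem_mem {G : SimpleGraph V} {a : Quotient (twin G)} {v : V} :
    v ∈ mem G a ↔ Quotient.mk (twin G) v = a := by
  unfold mem; simp

omit [Fintype V] in
theorem out_twin (G : SimpleGraph V) (v : V) :
    ∀ w, Nb G (Quotient.mk (twin G) v).out w ↔ Nb G v w :=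
  Quotient.exact (s := twin G) (Quotient.out_eq (Quotient.mk (twin G) v))

theorem nb_quot (G : SimpleGraph V) (a : Quotient (twin G)) (w : V) :
    Nb (QG G) a (Quotient.mk (twin G) w) ↔ Nb G a.out w := by
  have h1 : Nb (QG G) a (Quotient.mk (twin G) w) ↔
      Nb G a.out (Quotient.mk (twin G) w).out := by
    constructor
    · rintro (h | h)
      · rw [h]; exact nb_self G _
      · exact nb_of_adj h.2
    · intro h
      by_cases hab : Quotient.mk (twin G) w = a
      · exact Or.inl hab
      · refine Or.inr ⟨fun h' => hab h'.symm, adj_of_nb h ?_⟩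
        intro h'
        apply hab
        rw [← Quotient.out_eq a, h', Quotient.out_eq]
  rw [h1, nb_symm, out_twin, nb_symm]

theorem quot_twinfree (G : SimpleGraph V) (a b : Quotient (twin G))
    (h : ∀ w, Nb (QG G) a w ↔ Nb (QG G) b w) : a = b := by
  rw [← Quotient.out_eq a, ← Quotient.out_eq b]
  apply Quotient.sound (s := twin G)
  intro w
  rw [← nb_quot, ← nb_quot]
  exact h _

/-- The union of a set of classes. -/
theorem union_clique (G : SimpleGraph V) (s : Finset (Quotient (twin G)))
    (hs : (QG G).IsClique (s : Set (Quotient (twin G)))) (u v : V)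
    (hu : Quotient.mk (twin G) u ∈ s) (hv : Quotient.mk (twin G) v ∈ s) (hne : u ≠ v) :
    G.Adj u v := by
  by_cases h : Quotient.mk (twin G) u = Quotient.mk (twin G) v
  · have h1 : ∀ w, Nb G u w ↔ Nb G v w := Quotient.exact (s := twin G) h
    exact adj_of_nb ((h1 v).mpr (nb_self G v)) hne
  · have h1 := hs (Finset.mem_coe.mpr hu) (Finset.mem_coe.mpr hv) h
    have h2 : Nb (QG G) (Quotient.mk (twin G) u) (Quotient.mk (twin G) v) := nb_of_adj h1
    rw [nb_quot, out_twin] at h2
    exact adj_of_nb h2 hne

omit [Fintype V] in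
open scoped Classical in
theorem card_clique_le {G : SimpleGraph V} {ω : ℕ} (hfree : G.CliqueFree (ω + 1)) {s : Finset V}
    (hs : G.IsClique (s : Set V)) : s.card ≤ ω := by
  by_contra hcon
  obtain ⟨t, hts, htc⟩ := Finset.exists_subset_card_eq (show ω + 1 ≤ s.card by omega)
  exact hfree t ⟨hs.subset (Finset.coe_subset.mpr hts), htc⟩

open scoped Classical in
theorem hyp_quot (G : SimpleGraph V) (hconn : G.Connected) (k : ℕ)
    (hfree : G.CliqueFree (k + 2)) (hk : 2 ≤ k) (hcard : k + 2 ≤ Fintype.card V) :
    Hyp (QG G) (fun a => (mem G a).card) k := by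
  have hclass : ∀ a, G.IsClique (mem G a : Set V) := by
    intro a u hu v hv hne
    have hu' := mem_mem.mp (Finset.mem_coe.mp hu)
    have hv' := mem_mem.mp (Finset.mem_coe.mp hv)
    have h1 : ∀ w, Nb G u w ↔ Nb G v w := Quotient.exact (s := twin G) (hu'.trans hv'.symm)
    exact adj_of_nb ((h1 v).mpr (nb_self G v)) hne
  have hout : ∀ a : Quotient (twin G), a.out ∈ mem G a := fun a =>
    mem_mem.mpr (Quotient.out_eq a)
  refine ⟨quot_twinfree G, fun a => Finset.card_pos.mpr ⟨a.out, hout a⟩, ?_, ?_, hk⟩
  · intro a
    show (mem G a).card ≤ k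
    by_contra hcon
    have hle := card_clique_le hfree (hclass a)
    have heq : (mem G a).card = k + 1 := by omega
    obtain ⟨v, hv⟩ : ∃ v, v ∉ mem G a := by
      by_contra hno
      push Not at hno
      have : mem G a = Finset.univ := Finset.eq_univ_iff_forall.mpr hno
      rw [this, Finset.card_univ] at heq
      omega
    obtain ⟨p⟩ := hconn.preconnected a.out v
    obtain ⟨d, -, hd1, hd2⟩ := p.exists_boundary_dart (mem G a : Set V)
      (Finset.mem_coe.mpr (hout a)) (fun h => hv (Finset.mem_coe.mp h))
    have hd1' : d.fst ∈ mem G a := Finset.mem_coe.mp hd1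
    have hd2' : d.snd ∉ mem G a := fun h => hd2 (Finset.mem_coe.mpr h)
    have hcl : G.IsClique ((insert d.snd (mem G a) : Finset V) : Set V) := by
      rw [Finset.coe_insert]
      apply SimpleGraph.IsClique.insert (hclass a)
      intro z hz hne
      have hz' := mem_mem.mp (Finset.mem_coe.mp hz)
      have h1 : ∀ w, Nb G z w ↔ Nb G d.fst w :=
        Quotient.exact (s := twin G) (hz'.trans (mem_mem.mp hd1').symm)
      exact (adj_of_nb ((h1 d.snd).mpr (nb_of_adj d.adj)) (Ne.symm hne)).symm
    have h2 := card_clique_le hfree hcl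
    rw [Finset.card_insert_of_notMem hd2'] at h2
    omega
  · intro s hs
    show ∑ a ∈ s, (mem G a).card ≤ k + 1
    have hcl : G.IsClique ((Finset.univ.filter
        (fun v => Quotient.mk (twin G) v ∈ s) : Finset V) : Set V) := by
      intro u hu v hv hne
      have hu' := (Finset.mem_filter.mp (Finset.mem_coe.mp hu)).2
      have hv' := (Finset.mem_filter.mp (Finset.mem_coe.mp hv)).2
      exact union_clique G s hs u v hu' hv' hne
    have h1 := card_clique_le hfree hcl
    have hmaps : ∀ v ∈ Finset.univ.filter (fun v => Quotient.mk (twin G) v ∈ s),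
        Quotient.mk (twin G) v ∈ s := fun v hv => (Finset.mem_filter.mp hv).2
    rw [Finset.card_eq_sum_card_fiberwise hmaps] at h1
    refine le_trans (Finset.sum_le_sum (fun a ha => ?_)) h1
    apply Finset.card_le_card
    intro v hv
    have hv' := mem_mem.mp hv
    rw [Finset.mem_filter, Finset.mem_filter]
    exact ⟨⟨Finset.mem_univ _, by rw [hv']; exact ha⟩, hv'⟩

open scoped Classical in
theorem sum_card (G : SimpleGraph V) : ∑ a, (mem G a).card = Fintype.card V := by
  rw [← Finset.card_univ (α := V)]
  rw [Finset.card_eq_sum_card_fiberwise (f := fun v => Quotient.mk (twin G) v)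
    (t := Finset.univ) (fun v _ => Finset.mem_univ _)]
  rfl

open scoped Classical in
/-- The bound for connected graphs with clique number at most `k+1`. -/
theorem main_nat (G : SimpleGraph V) (hconn : G.Connected) (k : ℕ)
    (hfree : G.CliqueFree (k + 2)) (hk : 2 ≤ k) (hcard : k + 2 ≤ Fintype.card V) :
    ∃ W : Finset V, (∀ u v : V, G.Adj u v → ∃ w ∈ W, G.dist u w ≠ G.dist v w) ∧
      k * W.card ≤ (k - 1) * Fintype.card V := by
  obtain ⟨U, hU, hUc⟩ := abstract_bound (hyp_quot G hconn k hfree hk hcard)
  rw [sum_card] at hUc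
  set U' : Finset V := U.image (fun a => a.out) with hU'
  have hU'card : U'.card = U.card := by
    rw [hU']
    apply Finset.card_image_of_injective
    intro a b hab
    rw [← Quotient.out_eq a, ← Quotient.out_eq b]
    exact congrArg _ hab
  have hmemU' : ∀ v ∈ U', Quotient.mk (twin G) v ∈ U ∧ (Quotient.mk (twin G) v).out = v := by
    intro v hv
    obtain ⟨a, ha, hav⟩ := Finset.mem_image.mp hv
    have hav' : a.out = v := hav
    have h1 : Quotient.mk (twin G) v = a := by rw [← hav', Quotient.out_eq]
    rw [h1]
    exact ⟨ha, hav'⟩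
  refine ⟨Finset.univ \ U', ?_, ?_⟩
  · intro u v huv
    by_cases hu : u ∈ U'
    · by_cases hv : v ∈ U'
      · obtain ⟨hu1, hu2⟩ := hmemU' u hu
        obtain ⟨hv1, hv2⟩ := hmemU' v hv
        have hadj : (QG G).Adj (Quotient.mk (twin G) u) (Quotient.mk (twin G) v) := by
          refine ⟨?_, ?_⟩
          · intro h
            apply huv.ne
            rw [← hu2, ← hv2, h]
          · rw [hu2, hv2]; exact huv
        obtain ⟨d, hd, hd'⟩ := hU _ hu1 _ hv1 hadj
        -- a member of the class of `d` outside `U'`
        obtain ⟨w, hwd, hwU⟩ : ∃ w, Quotient.mk (twin G) w = d ∧ w ∉ U' := by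
          rcases hd' with h | h
          · refine ⟨d.out, Quotient.out_eq d, fun hcon => ?_⟩
            have h1 := (hmemU' _ hcon).1
            rw [Quotient.out_eq] at h1
            exact h h1
          · obtain ⟨w, hw, hwne⟩ := Finset.exists_mem_ne (show 1 < (mem G d).card from h) d.out
            refine ⟨w, mem_mem.mp hw, fun hcon => ?_⟩
            have h1 := (hmemU' _ hcon).2
            rw [mem_mem.mp hw] at h1
            exact hwne h1.symm
        refine ⟨w, by simpa using hwU, ?_⟩
        have hdd : ¬ (Nb G u w ↔ Nb G v w) := by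
          intro h
          apply hd
          rw [← hwd, nb_quot, nb_quot, out_twin, out_twin]
          exact h
        have key : ∀ p q : V, Nb G p w → ¬ Nb G q w → G.dist p w ≠ G.dist q w := by
          intro p q hp hq hdist
          have h1 : G.dist p w ≤ 1 := by
            rcases hp with h | h
            · rw [h, SimpleGraph.dist_self]; exact Nat.zero_le _
            · exact le_of_eq (SimpleGraph.dist_eq_one_iff_adj.mpr h)
          rw [hdist] at h1
          apply hq
          rcases Nat.le_one_iff_eq_zero_or_eq_one.mp h1 with h | h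
          · exact Or.inl ((hconn.dist_eq_zero_iff).mp h).symm
          · exact Or.inr (SimpleGraph.dist_eq_one_iff_adj.mp h)
        by_cases hp : Nb G u w
        · by_cases hq : Nb G v w
          · exact absurd ⟨fun _ => hq, fun _ => hp⟩ hdd
          · exact key u v hp hq
        · by_cases hq : Nb G v w
          · exact (key v u hq hp).symm
          · exact absurd ⟨fun h => absurd h hp, fun h => absurd h hq⟩ hdd
      · refine ⟨v, by simpa using hv, ?_⟩
        rw [SimpleGraph.dist_self, SimpleGraph.dist_eq_one_iff_adj.mpr huv]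
        exact one_ne_zero
    · refine ⟨u, by simpa using hu, ?_⟩
      rw [SimpleGraph.dist_self, SimpleGraph.dist_eq_one_iff_adj.mpr huv.symm]
      exact zero_ne_one
  · rw [Finset.card_sdiff_of_subset (Finset.subset_univ _), Finset.card_univ, hU'card]
    obtain ⟨m, rfl⟩ : ∃ m, k = m + 1 := ⟨k - 1, by omega⟩
    rw [Nat.add_sub_cancel]
    have h1 : U.card ≤ Fintype.card V := by
      rw [← hU'card]; exact Finset.card_le_univ _
    obtain ⟨r, hr⟩ := Nat.exists_eq_add_of_le h1
    rw [hr, Nat.add_sub_cancel_left]
    rw [hr] at hUc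
    nlinarith

end Pool.Agent.TH497.LMD
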