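import Pool.Agent.TH62.PL.Stms

set_option autoImplicit false

namespace Pool.Agent.TH497.J732
open Pool.Agent.TH62.PL
open scoped commutatorElement

section core

variable {G Q' F k : Type} [Field k] [Group G] [Group Q'] [CommGroup F]

/-- the set `(a - 1) M` -/
def D (ψ : G →* MulAut Q') (π : Q' →* F) (a : G) : Set F :=
  {X | ∃ m, X = π (ψ a m) * (π m)⁻¹}

theorem perm3 {X : Type} [Fintype X] [DecidableEq X] (h : Fintype.card X ≤ 3)
    (σ τ : Equiv.Perm X) (hσ : Equiv.Perm.sign σ = 1) (hτ : Equiv.Perm.sign τ = 1) :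
    σ * τ = τ * σ := by
  have key : ∀ n ≤ 3, ∀ σ τ : Equiv.Perm (Fin n), Equiv.Perm.sign σ = 1 →
      Equiv.Perm.sign τ = 1 → σ * τ = τ * σ := by
    intro n hn
    interval_cases n <;> decide
  let e := Fintype.equivFin X
  have := key _ h (e.permCongr σ) (e.permCongr τ) (by simpa using hσ) (by simpa using hτ)
  have h2 : e.permCongr (σ * τ) = e.permCongr (τ * σ) := by
    rw [← Equiv.permCongr_mul, ← Equiv.permCongr_mul] at *
    exact this
  exact e.permCongr.injective h2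

theorem core (ψ : G →* MulAut Q') (φ : G →* MulAut F) (π : Q' →* F) (B : Subgroup G)
    (h2 : (2 : k) ≠ 0)
    (hodd : ∀ b ∈ B, Odd (orderOf b)) (heq : ∀ b ∈ B, ∀ x, φ b (π x) = π (ψ b x))
    (hsq : ∀ x, π x * π x = 1) (β : Q' → Q' → k)
    (hl : ∀ x y z, β (x * y) z = β x z * β y z) (hr : ∀ x y z, β x (y * z) = β x y * β x z)
    (hpm : ∀ x y, β x y = 1 ∨ β x y = -1)
    (hcomm : ∀ a ∈ ⁅B, B⁆, ∀ a' ∈ ⁅B, B⁆, ∀ x, ψ a (ψ a' x) = ψ a' (ψ a x))
    (hst : ∀ a ∈ ⁅B, B⁆, ∀ x, β x (ψ a x) = 1 → π (ψ a x) = π x) :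
    ∀ a ∈ ⁅B, B⁆, ∀ x, π (ψ a x) = π x := by
  have hAB : ⁅B, B⁆ ≤ B := Subgroup.commutator_le_self B
  have one_ne : (1 : k) ≠ -1 := by
    intro h
    apply h2
    have : (1 : k) + 1 = 0 := by
      nth_rewrite 1 [h]
      ring
    rw [← this]; norm_num
  have hmem : ∀ a (X : F), X ∈ D ψ π a → ∃ y, X = π y := by
    rintro a X ⟨m, rfl⟩
    exact ⟨ψ a m * m⁻¹, by simp⟩
  have hXX : ∀ a (X : F), X ∈ D ψ π a → X * X = 1 := by
    intro a X hX
    obtain ⟨y, rfl⟩ := hmem a X hX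
    exact hsq y
  have hmul : ∀ a (X Y : F), X ∈ D ψ π a → Y ∈ D ψ π a → X * Y ∈ D ψ π a := by
    rintro a X Y ⟨m, rfl⟩ ⟨m', rfl⟩
    refine ⟨m * m', ?_⟩
    simp only [map_mul, mul_inv]
    exact mul_mul_mul_comm _ _ _ _
  -- fixed point freeness
  have hfpf : ∀ a ∈ B, ∀ X ∈ D ψ π a, φ a X = X → X = 1 := by
    intro a ha X hX hfix
    have hX2 := hXX a X hX
    obtain ⟨m, hm⟩ := hX
    have hm' : π (ψ a m) = π m * X := by
      rw [hm, mul_comm (π m), inv_mul_cancel_right]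
    have hpow : ∀ j : ℕ, φ (a ^ j) (π m) = π m * X ^ j := by
      intro j
      induction j with
      | zero => simp
      | succ j ih =>
        rw [pow_succ', map_mul, MulAut.mul_apply, ih, map_mul, map_pow, hfix, heq a ha, hm',
          pow_succ', mul_assoc]
    have h1 := hpow (orderOf a)
    rw [pow_orderOf_eq_one, map_one, MulAut.one_apply] at h1
    have h3 : X ^ orderOf a = 1 := by
      have := h1.symm
      rwa [mul_eq_left] at this
    obtain ⟨r, hr'⟩ := hodd a ha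
    rw [hr', pow_succ, pow_mul, pow_two, hX2, one_pow, one_mul] at h3
    exact h3
  -- moved points
  have hf : ∀ a ∈ ⁅B, B⁆, ∀ x, π x ∈ D ψ π a → π x ≠ 1 → β x (ψ a x) = -1 := by
    intro a ha x hx hx1
    rcases hpm x (ψ a x) with h | h
    · exfalso
      apply hx1
      apply hfpf a (hAB ha) _ hx
      rw [heq a (hAB ha)]
      exact hst a ha x h
    · exact h
  -- at most three nontrivial elements
  have hP : ∀ a ∈ ⁅B, B⁆, ∀ X ∈ D ψ π a, ∀ Y ∈ D ψ π a, ∀ Z ∈ D ψ π a, X ≠ 1 → Y ≠ 1 → Y ≠ X →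
      Z = 1 ∨ Z = X ∨ Z = Y ∨ Z = X * Y := by
    intro a ha X hX Y hY Z hZ hX1 hY1 hYX
    by_contra hcon
    push Not at hcon
    obtain ⟨hZ1, hZX, hZY, hZXY⟩ := hcon
    obtain ⟨x, rfl⟩ := hmem a X hX
    obtain ⟨y, rfl⟩ := hmem a Y hY
    obtain ⟨z, rfl⟩ := hmem a Z hZ
    have hg : ∀ u v, π u ∈ D ψ π a → π v ∈ D ψ π a → π u ≠ 1 → π v ≠ 1 → π v ≠ π u →
        β u (ψ a v) * β v (ψ a u) = -1 := by
      intro u v hu hv hu1 hv1 huv
      have e1 := hf a ha u hu hu1
      have e2 := hf a ha v hv hv1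
      have hne : π (u * v) ≠ 1 := by
        rw [map_mul]
        intro h
        apply huv
        have h5 := hsq u
        exact mul_left_cancel (h.trans h5.symm)
      have e3 := hf a ha (u * v) (by rw [map_mul]; exact hmul a _ _ hu hv) hne
      rw [map_mul, hl, hr, hr, e1, e2] at e3
      linear_combination e3
    have g1 := hg x y hX hY hX1 hY1 hYX
    have g2 := hg x z hX hZ hX1 hZ1 hZX
    have hyz1 : π (y * z) ≠ 1 := by
      rw [map_mul]
      intro h
      apply hZY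
      exact mul_left_cancel (h.trans (hsq y).symm)
    have hyzX : π (y * z) ≠ π x := by
      rw [map_mul]
      intro h
      apply hZXY
      rw [← h, mul_comm (π y) (π z), mul_assoc, hsq y, mul_one]
    have g3 := hg x (y * z) hX (by rw [map_mul]; exact hmul a _ _ hY hZ) hX1 hyz1 hyzX
    rw [map_mul, hr, hl] at g3
    have : (1 : k) = -1 := by
      have e : (β x (ψ a y) * β y (ψ a x)) * (β x (ψ a z) * β z (ψ a x)) = -1 := by
        rw [← g3]; ring
      rw [g1, g2] at e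
      rw [← e]; ring
    exact one_ne this
  -- conjugation
  have hconj : ∀ a ∈ ⁅B, B⁆, ∀ b ∈ B, b * a * b⁻¹ ∈ ⁅B, B⁆ := by
    intro a ha b hb
    have h1 : b * a * b⁻¹ = ⁅b, a⁆ * a := by
      rw [commutatorElement_def]; group
    rw [h1]
    exact mul_mem (Subgroup.commutator_mem_commutator hb (hAB ha)) ha
  have hDconj : ∀ a ∈ ⁅B, B⁆, ∀ b ∈ B, ∀ X ∈ D ψ π a, φ b X ∈ D ψ π (b * a * b⁻¹) := by
    rintro a ha b hb X ⟨m, rfl⟩
    refine ⟨ψ b m, ?_⟩
    rw [map_mul, map_inv, heq b hb, heq b hb]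
    congr 2
    rw [← MulAut.mul_apply, ← MulAut.mul_apply, ← map_mul, ← map_mul]
    congr 2
    group
  have hDcomm : ∀ a ∈ ⁅B, B⁆, ∀ b ∈ ⁅B, B⁆, ∀ X ∈ D ψ π a, φ b X ∈ D ψ π a := by
    rintro a ha b hb X ⟨m, rfl⟩
    refine ⟨ψ b m, ?_⟩
    rw [map_mul, map_inv, heq b (hAB hb), heq b (hAB hb), hcomm a ha b hb]
  -- a moved element gives two different nontrivial elements
  have hmove : ∀ a ∈ ⁅B, B⁆, ∀ X ∈ D ψ π a, X ≠ 1 → φ a X ≠ 1 ∧ φ a X ≠ X := by
    intro a ha X hX hX1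
    constructor
    · intro h
      apply hX1
      rwa [map_eq_one_iff _ (MulEquiv.injective _)] at h
    · intro h
      exact hX1 (hfpf a (hAB ha) X hX h)
  -- two intersecting sets are equal
  have hsub : ∀ a ∈ ⁅B, B⁆, ∀ a' ∈ ⁅B, B⁆, ∀ X ∈ D ψ π a, X ∈ D ψ π a' → X ≠ 1 →
      D ψ π a ⊆ D ψ π a' := by
    intro a ha a' ha' X hX hX' hX1 Z hZ
    obtain ⟨m1, m2⟩ := hmove a ha X hX hX1
    have hY' := hDcomm a' ha' a ha X hX'
    rcases hP a ha X hX _ (hDcomm a ha a ha X hX) Z hZ hX1 m1 m2 with h | h | h | h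
    · rw [h]; exact ⟨1, by simp⟩
    · rw [h]; exact hX'
    · rw [h]; exact hY'
    · rw [h]; exact hmul _ _ _ hX' hY'
  have hsub' : ∀ a ∈ ⁅B, B⁆, ∀ a' ∈ ⁅B, B⁆, ∀ X ∈ D ψ π a, X ≠ 1 → ∀ X' ∈ D ψ π a', X' ≠ 1 →
      D ψ π a ⊆ D ψ π a' := by
    intro a ha a' ha' X hX hX1 X' hX' hX'1
    by_contra hns
    have hint : ∀ Y ∈ D ψ π a, Y ∈ D ψ π a' → Y = 1 := by
      intro Y hY hY'
      by_contra hY1
      exact hns (hsub a ha a' ha' Y hY hY' hY1)
    have haa : a * a' ∈ ⁅B, B⁆ := mul_mem ha ha'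
    -- a acts trivially on D a', a' acts trivially on D a
    have t1 : ∀ Y ∈ D ψ π a', φ a Y = Y := by
      intro Y hY
      obtain ⟨y, hy⟩ := hmem _ _ hY
      have h3 : φ a Y * Y⁻¹ ∈ D ψ π a := ⟨y, by rw [hy, heq a (hAB ha)]⟩
      have h4 : φ a Y * Y⁻¹ ∈ D ψ π a' := by
        have hY2 : Y⁻¹ = Y := inv_eq_of_mul_eq_one_left (hXX _ _ hY)
        rw [hY2]
        exact hmul _ _ _ (hDcomm a' ha' a ha Y hY) hY
      have := hint _ h3 h4
      rwa [mul_inv_eq_one] at this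
    have t2 : ∀ Y ∈ D ψ π a, φ a' Y = Y := by
      intro Y hY
      obtain ⟨y, hy⟩ := hmem _ _ hY
      have h3 : φ a' Y * Y⁻¹ ∈ D ψ π a' := ⟨y, by rw [hy, heq a' (hAB ha')]⟩
      have h4 : φ a' Y * Y⁻¹ ∈ D ψ π a := by
        have hY2 : Y⁻¹ = Y := inv_eq_of_mul_eq_one_left (hXX _ _ hY)
        rw [hY2]
        exact hmul _ _ _ (hDcomm a ha a' ha' Y hY) hY
      have := hint _ h4 h3
      rwa [mul_inv_eq_one] at this
    -- elements of D (a a')
    have e1 : ∀ Y ∈ D ψ π a, φ a Y * Y⁻¹ ∈ D ψ π (a * a') := by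
      intro Y hY
      obtain ⟨y, hy⟩ := hmem _ _ hY
      refine ⟨y, ?_⟩
      rw [map_mul, MulAut.mul_apply, ← heq a (hAB ha), ← heq a' (hAB ha'), ← hy, t2 Y hY]
    have e2 : ∀ Y ∈ D ψ π a', φ a' Y * Y⁻¹ ∈ D ψ π (a * a') := by
      intro Y hY
      obtain ⟨y, hy⟩ := hmem _ _ hY
      refine ⟨y, ?_⟩
      rw [map_mul, MulAut.mul_apply, ← heq a (hAB ha), ← heq a' (hAB ha'), ← hy,
        t1 _ (hDcomm a' ha' a' ha' Y hY)]
    have hin : ∀ c ∈ ⁅B, B⁆, ∀ Y ∈ D ψ π c, φ c Y * Y⁻¹ ∈ D ψ π c := by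
      intro c hc Y hY
      have hY2 : Y⁻¹ = Y := inv_eq_of_mul_eq_one_left (hXX _ _ hY)
      rw [hY2]
      exact hmul _ _ _ (hDcomm c hc c hc Y hY) hY
    obtain ⟨m1, m2⟩ := hmove a ha X hX hX1
    set U := φ a X * X⁻¹ with hU
    have hUD : U ∈ D ψ π a := hin a ha X hX
    have hU1 : U ≠ 1 := by
      rw [hU]; intro h; exact m2 (mul_inv_eq_one.1 h)
    obtain ⟨n1, n2⟩ := hmove a ha U hUD hU1
    have hV : φ a U ∈ D ψ π (a * a') := by
      have := e1 (φ a X) (hDcomm a ha a ha X hX)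
      rwa [← map_inv, ← map_mul] at this
    obtain ⟨m1', m2'⟩ := hmove a' ha' X' hX' hX'1
    have hT : φ a' X' * X'⁻¹ ≠ 1 := fun h => m2' (mul_inv_eq_one.1 h)
    have hTD : φ a' X' * X'⁻¹ ∈ D ψ π a' := hin a' ha' X' hX'
    rcases hP (a * a') haa U (e1 X hX) (φ a U) hV (φ a' X' * X'⁻¹) (e2 X' hX') hU1 n1 n2
      with h | h | h | h
    · exact hT h
    · exact hT (hint _ (by rw [h]; exact hUD) hTD)
    · exact hT (hint _ (by rw [h]; exact hDcomm a ha a ha U hUD) hTD)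
    · exact hT (hint _ (by rw [h]; exact hmul _ _ _ hUD (hDcomm a ha a ha U hUD)) hTD)
  -- main argument
  intro a ha x
  by_contra hx
  set X0 : F := π (ψ a x) * (π x)⁻¹ with hX0
  have hX0D : X0 ∈ D ψ π a := ⟨x, rfl⟩
  have hX01 : X0 ≠ 1 := fun h => hx (mul_inv_eq_one.1 h)
  -- invariance under B
  have hWinv : ∀ b ∈ B, ∀ X ∈ D ψ π a, φ b X ∈ D ψ π a := by
    intro b hb X hX
    have h1 := hDconj a ha b hb X hX
    have h3 := hDconj a ha b hb X0 hX0D
    have h4 : φ b X0 ≠ 1 := by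
      intro h
      apply hX01
      rwa [map_eq_one_iff _ (MulEquiv.injective _)] at h
    exact hsub' _ (hconj a ha b hb) a ha _ h3 h4 X0 hX0D hX01 h1
  let S : Type := {X : F // X ∈ D ψ π a ∧ X ≠ 1}
  obtain ⟨m1, m2⟩ := hmove a ha X0 hX0D hX01
  have hS : ∀ s : S, s.1 = X0 ∨ s.1 = φ a X0 ∨ s.1 = X0 * φ a X0 := by
    rintro ⟨s, hs, hs1⟩
    rcases hP a ha X0 hX0D _ (hDcomm a ha a ha X0 hX0D) s hs hX01 m1 m2 with h | h
    · exact absurd h hs1
    · exact h
  classical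
  have : Finite S := by
    have : Set.Finite {X : F | X ∈ D ψ π a ∧ X ≠ 1} := by
      apply Set.Finite.subset (Set.toFinite ({X0, φ a X0, X0 * φ a X0} : Set F))
      rintro s hs
      simpa using hS ⟨s, hs⟩
    exact this.to_subtype
  let _ : Fintype S := Fintype.ofFinite S
  have hcard : Fintype.card S ≤ 3 := by
    have h1 : (Finset.univ : Finset S).image (fun s => s.1) ⊆
        ({X0, φ a X0, X0 * φ a X0} : Finset F) := by
      intro X hX
      rw [Finset.mem_image] at hX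
      obtain ⟨s, -, rfl⟩ := hX
      simpa using hS s
    have h3 := Finset.card_le_card h1
    rw [Finset.card_image_of_injective _ Subtype.val_injective] at h3
    exact h3.trans (Finset.card_le_three)
  have hne1 : ∀ b (X : F), X ≠ 1 → φ b X ≠ 1 := by
    intro b X hX h
    apply hX
    rwa [map_eq_one_iff _ (MulEquiv.injective _)] at h
  let σ : B →* Equiv.Perm S := MonoidHom.mk'
    (fun b => 
      { toFun := fun s => ⟨φ b s.1, hWinv b b.2 _ s.2.1, hne1 b _ s.2.2⟩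
        invFun := fun s => ⟨φ (b⁻¹ : B) s.1, hWinv _ (b⁻¹).2 _ s.2.1, hne1 _ _ s.2.2⟩
        left_inv := by
          rintro ⟨s, hs⟩
          apply Subtype.ext
          simp
        right_inv := by
          rintro ⟨s, hs⟩
          apply Subtype.ext
          simp })
    (by
      intro b b'
      ext s
      simp)
  have hσ : ∀ (b : B) (s : S), (σ b s).1 = φ b s.1 := fun b s => rfl
  have hsign : ∀ b : B, Equiv.Perm.sign (σ b) = 1 := by
    intro b
    have hb : b ^ orderOf (b : G) = 1 := by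
      apply Subtype.ext
      simp [pow_orderOf_eq_one]
    obtain ⟨r, hr'⟩ := hodd b b.2
    have h1 : Equiv.Perm.sign (σ b) ^ orderOf (b : G) = 1 := by
      rw [← map_pow, ← map_pow, hb, map_one, map_one]
    rw [hr', pow_succ, pow_mul, Int.units_sq, one_pow, one_mul] at h1
    exact h1
  have hc : ∀ b b' : B, σ ⁅b, b'⁆ = 1 := by
    intro b b'
    have := perm3 hcard (σ b) (σ b') (hsign b) (hsign b')
    rw [commutatorElement_def, map_mul, map_mul, map_mul, this, map_inv, map_inv]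
    group
  have hfix : ⁅B, B⁆ ≤ (σ.ker).map B.subtype := by
    rw [Subgroup.commutator_le]
    intro b hb b' hb'
    exact ⟨⁅(⟨b, hb⟩ : B), ⟨b', hb'⟩⁆, hc _ _, rfl⟩
  obtain ⟨a1, ha1, ha2⟩ := hfix ha
  have h5 : φ a X0 = X0 := by
    have := congrArg (fun f : Equiv.Perm S => (f ⟨X0, hX0D, hX01⟩).1) (show σ a1 = 1 from ha1)
    simp only [hσ] at this
    rw [← ha2]
    exact this
  exact m2 h5

end core

section concrete

/-- precomposition with conjugation, on functions on `Q` -/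
def phi {G k : Type} [Field k] [Group G] (Q : Subgroup G) [Q.Normal] : G →* MulAut (Q → kˣ) :=
  MonoidHom.mk'
    (fun g =>
      { toFun := fun f w => f (MulAut.conjNormal g⁻¹ w)
        invFun := fun f w => f (MulAut.conjNormal g w)
        left_inv := by
          intro f
          funext w
          simp only [← MulAut.mul_apply, ← map_mul]
          simp
        right_inv := by
          intro f
          funext w
          simp only [← MulAut.mul_apply, ← map_mul]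
          simp
        map_mul' := by
          intro f g
          rfl })
    (by
      intro g h
      ext f w
      simp [MulAut.mul_apply])

theorem odd2 : Odd2Stm := by
  intro k G _ _ _ Q Z c h2 hQC B hodd hcB hcomm hst a ha
  have hQn := hQC.Qn
  have hc1 : c 1 = 1 := by
    have h1 := hQC.cmul 1 (one_mem _) 1 (one_mem _)
    rw [mul_one] at h1
    have h3 := hQC.cne 1 (one_mem _)
    have : c 1 * (c 1 - 1) = 0 := by rw [mul_sub, ← h1]; ring
    rcases mul_eq_zero.1 this with h | h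
    · exact absurd h h3
    · exact sub_eq_zero.1 h
  -- the pairing
  let γ : Q → Q → G := fun x y => (x : G) * (y : G) * (x : G)⁻¹ * (y : G)⁻¹
  have hγ : ∀ x y, γ x y ∈ Z := fun x y => hQC.comm x x.2 y y.2
  have hγl : ∀ x y z, γ (x * y) z = γ x z * γ y z := by
    intro x y z
    have h1 : γ (x * y) z = x * γ y z * (x : G)⁻¹ * γ x z := by
      simp only [γ, Subgroup.coe_mul]
      group
    rw [h1, ← hQC.cent _ (hγ y z) x x.2, mul_inv_cancel_right,
      hQC.cent _ (hγ y z) _ (hQC.ZQ (hγ x z))]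
  have hγr : ∀ x y z, γ x (y * z) = γ x y * γ x z := by
    intro x y z
    have h1 : γ x (y * z) = γ x y * (y * γ x z * (y : G)⁻¹) := by
      simp only [γ, Subgroup.coe_mul]
      group
    rw [h1, ← hQC.cent _ (hγ x z) y y.2, mul_inv_cancel_right]
  let β : Q → Q → k := fun x y => c (γ x y)
  have hl : ∀ x y z, β (x * y) z = β x z * β y z := by
    intro x y z
    simp only [β]
    rw [hγl, hQC.cmul _ (hγ x z) _ (hγ y z)]
  have hr : ∀ x y z, β x (y * z) = β x y * β x z := by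
    intro x y z
    simp only [β]
    rw [hγr, hQC.cmul _ (hγ x y) _ (hγ x z)]
  have hsqx : ∀ x y : Q, β (x * x) y = 1 := by
    intro x y
    simp only [β]
    have h1 : γ (x * x) y = 1 := by
      have h3 := hQC.cent _ (hQC.pow x x.2) y y.2
      simp only [γ, Subgroup.coe_mul]
      rw [pow_two] at h3
      rw [h3]
      group
    rw [h1, hc1]
  have hne : ∀ x y, β x y ≠ 0 := fun x y => hQC.cne _ (hγ x y)
  have hpm : ∀ x y, β x y = 1 ∨ β x y = -1 := by
    intro x y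
    have h1 := hsqx x y
    rw [hl] at h1
    exact mul_self_eq_one_iff.1 h1
  let π : Q →* (Q → kˣ) := MonoidHom.mk' (fun x w => Units.mk0 (β x w) (hne x w)) (by
    intro x y
    funext w
    apply Units.ext
    simp [hl])
  have hπ : ∀ x y, π x = π y ↔ ∀ w, β x w = β y w := by
    intro x y
    constructor
    · intro h w
      have := congrArg (fun f : Q → kˣ => ((f w : kˣ) : k)) h
      exact this
    · intro h
      funext w
      apply Units.ext
      exact h w
  have heq : ∀ b ∈ B, ∀ x : Q, phi (k := k) Q b (π x) = π (MulAut.conjNormal b x) := by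
    intro b hb x
    funext w
    apply Units.ext
    change β x (MulAut.conjNormal b⁻¹ w) = β (MulAut.conjNormal b x) w
    simp only [β]
    rw [← hcB b hb _ (hγ x _)]
    congr 1
    simp only [γ, MulAut.conjNormal_apply, map_inv, MulAut.conjNormal_inv_apply]
    group
  have hsq : ∀ x, π x * π x = 1 := by
    intro x
    rw [← map_mul, ← map_one π, hπ]
    intro w
    rw [hsqx]
    simp only [β, γ]
    have : ((1 : Q) : G) * w * ((1 : Q) : G)⁻¹ * (w : G)⁻¹ = 1 := by simp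
    rw [this, hc1]
  have hcomm' : ∀ a ∈ ⁅B, B⁆, ∀ a' ∈ ⁅B, B⁆, ∀ x : Q,
      (MulAut.conjNormal a (MulAut.conjNormal a' x) : Q) =
        MulAut.conjNormal a' (MulAut.conjNormal a x) := by
    intro a ha a' ha' x
    rw [← MulAut.mul_apply, ← MulAut.mul_apply, ← map_mul, ← map_mul]
    apply Subtype.ext
    simp only [MulAut.conjNormal_apply]
    exact hcomm a ha a' ha' x x.2
  have hst' : ∀ a ∈ ⁅B, B⁆, ∀ x : Q, β x (MulAut.conjNormal a x) = 1 →
      π (MulAut.conjNormal a x) = π x := by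
    intro a ha x hx
    rw [hπ]
    intro w
    have h1 : c (x * (a * x * a⁻¹) * (x : G)⁻¹ * (a * x * a⁻¹)⁻¹) = 1 := hx
    have h3 := hst a ha x x.2 h1 w w.2
    have h4 : β (MulAut.conjNormal a x * x⁻¹) w = 1 := h3
    have h5 : β (MulAut.conjNormal a x) w = β (MulAut.conjNormal a x * x⁻¹) w * β x w := by
      rw [← hl, inv_mul_cancel_right]
    rw [h5, h4, one_mul]
  have main := core (k := k) MulAut.conjNormal (phi (k := k) Q) π B h2 hodd heq hsq β hl hr hpm
    hcomm' hst' a ha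
  intro x hx y hy
  have h1 := (hπ _ _).1 (main ⟨x, hx⟩) ⟨y, hy⟩
  have h3 : β (MulAut.conjNormal a ⟨x, hx⟩ * (⟨x, hx⟩ : Q)⁻¹) ⟨y, hy⟩ = 1 := by
    have h5 : β (MulAut.conjNormal a ⟨x, hx⟩) ⟨y, hy⟩ =
        β (MulAut.conjNormal a ⟨x, hx⟩ * (⟨x, hx⟩ : Q)⁻¹) ⟨y, hy⟩ * β ⟨x, hx⟩ ⟨y, hy⟩ := by
      rw [← hl, inv_mul_cancel_right]
    rw [h5] at h1
    exact mul_eq_right₀ (hne _ _) |>.1 h1
  exact h3

end concrete

end Pool.Agent.TH497.J732
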